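import Pool.Agent.H14.ES.Stm

/-!
# Part APX of the crew ES (MP_9214e0_lc)
-/

set_option autoImplicit false

namespace H30.ES

open MeasureTheory Set H14.ES
open scoped ENNReal

theorem t_APX : S_APX := by
  intro I _ A hA ε hε
  have hring : IsSetRing (measurableCylinders (fun _ : I => Bool)) := isSetRing_measurableCylinders
  obtain ⟨C, hC, hlt⟩ := exists_measure_symmDiff_lt_of_generateFrom_isSetRing (μ := mu I) hring
    ⟨{Set.univ}, Set.countable_singleton _,
      Set.singleton_subset_iff.2 (univ_mem_measurableCylinders _), by simp⟩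
    (generateFrom_measurableCylinders (α := fun _ : I => Bool)).symm hA
    (pos_iff_ne_zero.2 hε)
  obtain ⟨F, S, hS, rfl⟩ := (mem_measurableCylinders _).1 hC
  refine ⟨F, cylinder F S, hS.cylinder F, ?_, ?_⟩
  · intro ω ω' h
    rw [mem_cylinder, mem_cylinder]
    have : F.restrict ω = F.restrict ω' := by
      ext i
      exact h i.1 i.2
    rw [this]
  · rw [symmDiff_comm]
    exact hlt.le

end H30.ES
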