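import Pool.Agent.H14.ES.Stm

/-!
# Part ERG of the crew ES (MP_9214e0_lc)
-/

set_option autoImplicit false

namespace H30.ES

open MeasureTheory Set H14.ES ProbabilityTheory
open scoped ENNReal

/-- `C` depends on the coordinates in `F` only -/
def Dep {I : Type} (F : Finset I) (C : Set (I → Bool)) : Prop :=
  ∀ ω ω' : I → Bool, (∀ i ∈ F, ω i = ω' i) → (ω ∈ C ↔ ω' ∈ C)

theorem coord_indep (I : Type) : iIndepFun (fun (i : I) (ω : I → Bool) => ω i) (mu I) :=
  iIndepFun_infinitePi (P := fun _ : I => coin) (X := fun _ b => b) (fun _ => measurable_id)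

open Classical in
/-- extension by `false` -/
noncomputable def ext {I : Type} (F : Finset I) (y : F → Bool) (i : I) : Bool :=
  if h : i ∈ F then y ⟨i, h⟩ else false

theorem measurable_ext {I : Type} (F : Finset I) : Measurable (ext F) := by
  classical
  rw [measurable_pi_iff]
  intro i
  unfold ext
  by_cases h : i ∈ F
  · simp only [h, dif_pos]
    exact measurable_pi_apply _
  · simp only [h, dif_neg, not_false_eq_true]
    exact measurable_const

theorem dep_eq {I : Type} {F : Finset I} {C : Set (I → Bool)} (hC : Dep F C) :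
    C = (fun ω (i : F) => ω i) ⁻¹' (ext F ⁻¹' C) := by
  classical
  ext ω
  simp only [Set.mem_preimage]
  apply hC
  intro i hi
  unfold ext
  rw [dif_pos hi]

theorem indep_sets {I : Type} {F F' : Finset I} (hd : Disjoint F F') {C C' : Set (I → Bool)}
    (hC : MeasurableSet C) (hC' : MeasurableSet C') (h : Dep F C) (h' : Dep F' C') :
    mu I (C ∩ C') = mu I C * mu I C' := by
  have h1 := (coord_indep I).indepFun_finset F F' hd (fun i => measurable_pi_apply i)
  have h2 := h1.measure_inter_preimage_eq_mul (ext F ⁻¹' C) (ext F' ⁻¹' C')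
    (measurable_ext F hC) (measurable_ext F' hC')
  rw [← dep_eq h, ← dep_eq h'] at h2
  exact h2

theorem sh_mul {I : Type} (p q : Equiv.Perm I) (ω : I → Bool) : sh (p * q) ω = sh p (sh q ω) := by
  funext i
  simp [sh]

theorem sh_one {I : Type} (ω : I → Bool) : sh (1 : Equiv.Perm I) ω = ω := by
  funext i
  simp [sh]

theorem measurable_sh {I : Type} (p : Equiv.Perm I) : Measurable (sh p) := by
  rw [measurable_pi_iff]
  intro i
  exact measurable_pi_apply _

theorem mp_sh (hR : S_REI) {I : Type} [Countable I] (p : Equiv.Perm I) :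
    MeasurePreserving (sh p) (mu I) (mu I) := hR I I p⁻¹

theorem pow_inv (hR : S_REI) {I : Type} [Countable I] (p : Equiv.Perm I) {A : Set (I → Bool)}
    (h : sh p ⁻¹' A =ᵐ[mu I] A) (n : ℕ) : sh (p ^ n) ⁻¹' A =ᵐ[mu I] A := by
  induction n with
  | zero =>
    have : sh (p ^ 0) ⁻¹' A = A := by
      ext ω
      simp [sh_one]
    rw [this]
  | succ n ih =>
    have h1 : sh (p ^ (n + 1)) ⁻¹' A = sh p ⁻¹' (sh (p ^ n) ⁻¹' A) := by
      ext ω
      simp only [Set.mem_preimage]
      rw [pow_succ, sh_mul]
    rw [h1]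
    exact ((mp_sh hR p).quasiMeasurePreserving.preimage_ae_eq ih).trans h

/-- some power moves `F` off itself -/
theorem exists_pow {I : Type} (p : Equiv.Perm I) (hp : InfOrb p) (F : Finset I) :
    ∃ n : ℕ, ∀ i ∈ F, ∀ j ∈ F, (p ^ n) i ≠ j := by
  classical
  have hfin : (⋃ q ∈ (F ×ˢ F : Finset (I × I)), {n : ℕ | (p ^ n) q.1 = q.2}).Finite := by
    refine Set.Finite.biUnion (Finset.finite_toSet _) ?_
    rintro ⟨i, j⟩ -
    apply Set.Subsingleton.finite
    intro n hn m hm
    simp only [Set.mem_setOf_eq] at hn hm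
    by_contra hne
    rcases Nat.lt_or_gt_of_ne hne with hlt | hlt
    · apply hp j (m - n) (Nat.sub_pos_of_lt hlt)
      have : p ^ m = p ^ (m - n) * p ^ n := by
        rw [← pow_add, Nat.sub_add_cancel hlt.le]
      rw [this, Equiv.Perm.mul_apply, hn] at hm
      exact hm
    · apply hp j (n - m) (Nat.sub_pos_of_lt hlt)
      have : p ^ n = p ^ (n - m) * p ^ m := by
        rw [← pow_add, Nat.sub_add_cancel hlt.le]
      rw [this, Equiv.Perm.mul_apply, hm] at hn
      exact hn
  obtain ⟨n, hn⟩ := hfin.exists_notMem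
  refine ⟨n, fun i hi j hj e => hn ?_⟩
  simp only [Set.mem_iUnion]
  exact ⟨(i, j), by simp [hi, hj], e⟩

theorem t_ERG (hR : S_REI) (hA' : S_APX) : S_ERG := by
  classical
  intro I _ p hp A hA hinv
  -- the main inequality
  have key : ∀ ε : ℝ, 0 < ε → (mu I).real A - 2 * ε ≤ ((mu I).real A + ε) ^ 2 := by
    intro ε hε
    obtain ⟨F, C, hC, hdep, hsym⟩ := hA' I A hA (ENNReal.ofReal ε)
      (by simpa using hε)
    obtain ⟨n, hn⟩ := exists_pow p hp F
    set C' : Set (I → Bool) := sh (p ^ n) ⁻¹' C with hC'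
    have mC' : MeasurableSet C' := measurable_sh _ hC
    set F' : Finset I := F.image (fun i => (p ^ n)⁻¹ i) with hF'
    have hdep' : Dep F' C' := by
      intro ω ω' h
      refine hdep _ _ fun i hi => ?_
      exact h _ (Finset.mem_image_of_mem _ hi)
    have hdis : Disjoint F F' := by
      rw [Finset.disjoint_left]
      intro i hi hi'
      obtain ⟨j, hj, hji⟩ := Finset.mem_image.1 hi'
      apply hn i hi j hj
      rw [← hji]
      simp
    have hmul := indep_sets hdis hC mC' hdep hdep'
    have hmeq : mu I C' = mu I C := (mp_sh hR (p ^ n)).measure_preimage hC.nullMeasurableSet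
    -- distances
    have d1 : (mu I).real (symmDiff A C) ≤ ε := by
      have := ENNReal.toReal_mono ENNReal.ofReal_ne_top hsym
      rwa [ENNReal.toReal_ofReal hε.le] at this
    have d2 : (mu I).real (symmDiff A C') ≤ ε := by
      have h1 : mu I (symmDiff A C') ≤ mu I (symmDiff A C) := by
        have h2 : (symmDiff A C' : Set (I → Bool)) =ᵐ[mu I] sh (p ^ n) ⁻¹' (symmDiff A C) := by
          have h3 := (pow_inv hR p hinv n).symm
          rw [Set.preimage_symmDiff]
          exact ae_eq_set_symmDiff h3 (ae_eq_refl _)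
        rw [measure_congr h2,
          (mp_sh hR (p ^ n)).measure_preimage (hA.symmDiff hC).nullMeasurableSet]
      have := ENNReal.toReal_mono ENNReal.ofReal_ne_top (h1.trans hsym)
      rwa [ENNReal.toReal_ofReal hε.le] at this
    have hreal : (mu I).real (C ∩ C') = (mu I).real C * (mu I).real C := by
      rw [measureReal_def, hmul, hmeq, ENNReal.toReal_mul, measureReal_def]
    have hsub : A ⊆ (C ∩ C') ∪ (symmDiff A C ∪ symmDiff A C') := by
      intro ω hω
      by_cases h1 : ω ∈ C
      · by_cases h2 : ω ∈ C'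
        · exact Or.inl ⟨h1, h2⟩
        · exact Or.inr (Or.inr (Or.inl ⟨hω, h2⟩))
      · exact Or.inr (Or.inl (Or.inl ⟨hω, h1⟩))
    have h3 : (mu I).real A ≤ (mu I).real (C ∩ C') + ((mu I).real (symmDiff A C) +
        (mu I).real (symmDiff A C')) := by
      refine (measureReal_mono hsub).trans ((measureReal_union_le _ _).trans ?_)
      gcongr
      exact measureReal_union_le _ _
    have hsub2 : C ⊆ A ∪ symmDiff A C := by
      intro ω hω
      by_cases h1 : ω ∈ A
      · exact Or.inl h1
      · exact Or.inr (Or.inr ⟨hω, h1⟩)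
    have h4 : (mu I).real C ≤ (mu I).real A + ε := by
      refine (measureReal_mono hsub2).trans ((measureReal_union_le _ _).trans ?_)
      gcongr
    have h5 : (0 : ℝ) ≤ (mu I).real C := measureReal_nonneg
    rw [hreal] at h3
    nlinarith
  set a := (mu I).real A with ha
  have ha0 : 0 ≤ a := measureReal_nonneg
  have ha1 : a ≤ 1 := measureReal_le_one
  have haa : a ≤ a ^ 2 := by
    by_contra hlt
    push Not at hlt
    have h1 := key ((a - a ^ 2) / 8) (by linarith)
    have h2 : (a - a ^ 2) / 8 ≤ 1 / 8 := by nlinarith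
    nlinarith
  have hfac : a * (1 - a) ≤ 0 := by nlinarith
  have h01 : a = 0 ∨ a = 1 := by
    rcases ha0.eq_or_lt with h | h
    · left; exact h.symm
    · right
      nlinarith
  rcases h01 with h | h
  · left
    rw [ha, measureReal_def, ENNReal.toReal_eq_zero_iff] at h
    rcases h with h | h
    · exact h
    · exact absurd h (measure_ne_top _ _)
  · right
    rw [ha, measureReal_def] at h
    rw [← ENNReal.toReal_eq_one_iff]
    exact h

end H30.ES
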