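import Pool.Agent.H14.ES.Stm2

/-!
# Crew ES, part INV: invariance gives independence of the coordinates in `C`
-/

set_option autoImplicit false

namespace H30.ES

open MeasureTheory Set H14.ES
open scoped ENNReal

variable {D : Type}

/-- glue a configuration outside `C` and one on `C` -/
def glC (C : D → Prop) [DecidablePred C] (q : ({d // ¬ C d} → Bool) × ({d // C d} → Bool)) :
    D → Bool :=
  fun d => if h : C d then q.2 ⟨d, h⟩ else q.1 ⟨d, h⟩

/-- split a configuration -/
def spC (C : D → Prop) (x : D → Bool) : ({d // ¬ C d} → Bool) × ({d // C d} → Bool) :=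
  (fun d => x d, fun d => x d)

theorem glC_spC (C : D → Prop) [DecidablePred C] (x : D → Bool) : glC C (spC C x) = x := by
  funext d
  by_cases h : C d <;> simp [glC, spC, h]

theorem measurable_glC (C : D → Prop) [DecidablePred C] : Measurable (glC C) := by
  rw [measurable_pi_iff]
  intro d
  by_cases h : C d
  · have : (fun x => glC C x d) = fun q : ({d // ¬ C d} → Bool) × ({d // C d} → Bool) =>
        q.2 ⟨d, h⟩ := by
      funext q; simp [glC, h]
    rw [this]
    exact (measurable_pi_apply _).comp measurable_snd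
  · have : (fun x => glC C x d) = fun q : ({d // ¬ C d} → Bool) × ({d // C d} → Bool) =>
        q.1 ⟨d, h⟩ := by
      funext q; simp [glC, h]
    rw [this]
    exact (measurable_pi_apply _).comp measurable_fst

theorem spC_mp [Countable D] (hSPL : S_SPL) (hREI : S_REI) (C : D → Prop) [DecidablePred C] :
    MeasurePreserving (spC C) (mu D) ((mu {d // ¬ C d}).prod (mu {d // C d})) := by
  have h1 := hREI D ({d // ¬ C d} ⊕ {d // C d}) ((Equiv.sumComm _ _).trans (Equiv.sumCompl C))
  have h2 := hSPL {d // ¬ C d} {d // C d}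
  exact h2.comp h1

theorem glC_mp [Countable D] (hSPL : S_SPL) (hREI : S_REI) (C : D → Prop) [DecidablePred C] :
    MeasurePreserving (glC C) ((mu {d // ¬ C d}).prod (mu {d // C d})) (mu D) := by
  refine ⟨measurable_glC C, ?_⟩
  have h := spC_mp hSPL hREI C
  rw [← h.map_eq, Measure.map_map (measurable_glC C) h.measurable]
  have : glC C ∘ spC C = id := by
    funext x
    exact glC_spC C x
  rw [this, Measure.map_id]

theorem t_INV (hERC : S_ERC) (hSPL : S_SPL) (hREI : S_REI) : S_INV := by
  intro D _ p C _ hfix hinf Y _ _ f hf hinv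
  have hC : ∀ d, C (p d) ↔ C d := by
    intro d
    constructor
    · intro h
      by_contra h'
      rw [hfix d h'] at h
      exact h' h
    · intro h
      by_contra h'
      have h1 := p.injective (hfix _ h')
      rw [h1] at h'
      exact h' h
  set p' : Equiv.Perm {d // C d} := p.subtypePerm hC with hp'
  have hpow : ∀ (n : ℕ) (d : {d // C d}), (((p' ^ n) d : {d // C d}) : D) = (p ^ n) (d : D) := by
    intro n
    induction n with
    | zero => intro d; rfl
    | succ k ih =>
      intro d
      rw [pow_succ, pow_succ, Equiv.Perm.mul_apply, Equiv.Perm.mul_apply, ih]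
      rfl
  have hp'inf : InfOrb p' := by
    intro d n hn h
    refine hinf d d.2 n hn ?_
    rw [← hpow, h]
  have hsh : ∀ q : ({d // ¬ C d} → Bool) × ({d // C d} → Bool),
      sh p (glC C q) = glC C (q.1, sh p' q.2) := by
    intro q
    funext d
    by_cases h : C d
    · have h1 : C (p⁻¹ d) := by
        rw [← hC (p⁻¹ d)]
        simpa using h
      have h2 : ((p'⁻¹ ⟨d, h⟩ : {d // C d}) : D) = p⁻¹ d := rfl
      have h3 : (p'⁻¹ ⟨d, h⟩ : {d // C d}) = ⟨p⁻¹ d, h1⟩ := Subtype.ext h2
      simp only [sh, glC, h, h1, dif_pos, h3]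
    · have h1 : p⁻¹ d = d := by
        rw [Equiv.Perm.inv_eq_iff_eq]
        exact (hfix d h).symm
      simp only [sh, glC, h1, h, dif_neg, not_false_iff]
  have hgl := glC_mp hSPL hREI C
  have hsp := spC_mp hSPL hREI C
  have h1 : ∀ᵐ q ∂((mu {d // ¬ C d}).prod (mu {d // C d})),
      f (glC C (q.1, sh p' q.2)) = f (glC C q) := by
    have := hgl.quasiMeasurePreserving.ae hinv
    filter_upwards [this] with q hq
    rw [← hsh]
    exact hq
  have h2 : ∀ᵐ z ∂(mu {d // ¬ C d}), ∃ y, ∀ᵐ u ∂(mu {d // C d}), f (glC C (z, u)) = y := by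
    filter_upwards [Measure.ae_ae_of_ae_prod h1] with z hz
    exact hERC _ p' hp'inf Y (fun u => f (glC C (z, u)))
      (hf.comp ((measurable_glC C).comp measurable_prodMk_left)) hz
  have hE : MeasurableSet {t : (({d // ¬ C d} → Bool) × ({d // C d} → Bool)) × ({d // C d} → Bool) |
      f (glC C (t.1.1, t.2)) = f (glC C t.1)} := by
    refine measurableSet_eq_fun ?_ ?_
    · exact hf.comp ((measurable_glC C).comp
        ((measurable_fst.comp measurable_fst).prodMk measurable_snd))
    · exact hf.comp ((measurable_glC C).comp measurable_fst)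
  have h3 : ∀ᵐ q ∂((mu {d // ¬ C d}).prod (mu {d // C d})),
      mu {d // C d} (Prod.mk q ⁻¹' {t : (({d // ¬ C d} → Bool) × ({d // C d} → Bool)) ×
        ({d // C d} → Bool) | f (glC C (t.1.1, t.2)) = f (glC C t.1)}ᶜ) = 0 := by
    have hm := measurable_measure_prodMk_left (ν := mu {d // C d}) hE.compl
    refine (Measure.ae_prod_iff_ae_ae (hm (measurableSet_singleton 0))).2 ?_
    filter_upwards [h2] with z hz
    obtain ⟨y, hy⟩ := hz
    filter_upwards [hy] with u hu
    have : ∀ᵐ u' ∂(mu {d // C d}), f (glC C (z, u')) = f (glC C (z, u)) := by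
      filter_upwards [hy] with u' hu'
      rw [hu, hu']
    exact this
  have h4 := hsp.quasiMeasurePreserving.ae h3
  filter_upwards [h4] with x hx
  have h5 : ∀ᵐ u' ∂(mu {d // C d}), f (glC C ((spC C x).1, u')) = f (glC C (spC C x)) := hx
  have h6 : ∀ᵐ q ∂((mu {d // ¬ C d}).prod (mu {d // C d})),
      f (glC C ((spC C x).1, q.2)) = f (glC C (spC C x)) :=
    Measure.quasiMeasurePreserving_snd.ae h5
  have h7 := hsp.quasiMeasurePreserving.ae h6
  filter_upwards [h7] with y hy
  rw [glC_spC] at hy
  rw [← hy]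
  congr 1

end H30.ES
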