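import Pool.Agent.H14.ES.Stm

/-!
# Part WAL of the crew ES (MP_9214e0_lc): Parseval for the Walsh functions
-/

set_option autoImplicit false

namespace H30.ES.WALaux

open MeasureTheory Set H14.ES
open scoped ENNReal RealInnerProductSpace

variable {I : Type}

/-- the sign -/
def sg (b : Bool) : ℝ := if b then -1 else 1

theorem sg_sq (b : Bool) : sg b * sg b = 1 := by cases b <;> simp [sg]

theorem sg_not (b : Bool) : sg (!b) = - sg b := by cases b <;> simp [sg]

theorem sg_abs (b : Bool) : |sg b| = 1 := by cases b <;> simp [sg]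

theorem wal_eq (A : Finset I) (ω : I → Bool) : wal A ω = ∏ i ∈ A, sg (ω i) := rfl

theorem wal_empty (ω : I → Bool) : wal (∅ : Finset I) ω = 1 := by simp [wal]

theorem wal_abs (A : Finset I) (ω : I → Bool) : |wal A ω| = 1 := by
  rw [wal_eq, Finset.abs_prod]
  exact Finset.prod_eq_one fun i _ => sg_abs _

theorem wal_measurable (A : Finset I) : Measurable (wal A : (I → Bool) → ℝ) := by
  unfold wal
  refine Finset.measurable_prod _ fun i _ => ?_
  exact (measurable_of_countable (fun b : Bool => if b then (-1 : ℝ) else 1)).comp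
    (measurable_pi_apply i)

theorem wal_mul [DecidableEq I] (A B : Finset I) (ω : I → Bool) :
    wal A ω * wal B ω = wal (symmDiff A B) ω := by
  rw [wal_eq, wal_eq, wal_eq]
  have h1 : ∏ i ∈ A, sg (ω i) = (∏ i ∈ A \ B, sg (ω i)) * ∏ i ∈ A ∩ B, sg (ω i) := by
    rw [← Finset.prod_union (Finset.disjoint_sdiff_inter A B), Finset.sdiff_union_inter]
  have h2 : ∏ i ∈ B, sg (ω i) = (∏ i ∈ B \ A, sg (ω i)) * ∏ i ∈ A ∩ B, sg (ω i) := by
    rw [Finset.inter_comm, ← Finset.prod_union (Finset.disjoint_sdiff_inter B A),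
      Finset.sdiff_union_inter]
  have h3 : (∏ i ∈ A ∩ B, sg (ω i)) * ∏ i ∈ A ∩ B, sg (ω i) = 1 := by
    rw [← Finset.prod_mul_distrib]
    exact Finset.prod_eq_one fun i _ => sg_sq _
  have h4 : ∏ i ∈ symmDiff A B, sg (ω i) = (∏ i ∈ A \ B, sg (ω i)) * ∏ i ∈ B \ A, sg (ω i) := by
    rw [symmDiff_def, Finset.sup_eq_union, Finset.prod_union]
    exact Finset.disjoint_left.2 fun i hi hj =>
      (Finset.mem_sdiff.1 hj).2 (Finset.mem_sdiff.1 hi).1
  rw [h1, h2, h4]
  calc _ = (∏ i ∈ A \ B, sg (ω i)) * (∏ i ∈ B \ A, sg (ω i)) *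
        ((∏ i ∈ A ∩ B, sg (ω i)) * ∏ i ∈ A ∩ B, sg (ω i)) := by ring
    _ = _ := by rw [h3, mul_one]

theorem coin_not : coin.map (fun b => !b) = coin := by
  unfold coin
  have h : ∀ b, (Measure.dirac b).map (fun b : Bool => !b) = Measure.dirac (!b) :=
    fun b => Measure.map_dirac b
  rw [Measure.map_smul, Measure.map_add _ _ (measurable_of_countable _), h, h, add_comm]
  rfl

open Classical in
/-- flip the coordinate `i` -/
noncomputable def flip (i : I) (ω : I → Bool) : I → Bool :=
  fun j => (fun b => if j = i then !b else b) (ω j)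

theorem flip_mp (i : I) : MeasurePreserving (flip i) (mu I) (mu I) := by
  classical
  refine ⟨?_, ?_⟩
  · rw [measurable_pi_iff]
    intro j
    exact (measurable_of_countable (fun b : Bool => if j = i then !b else b)).comp
      (measurable_pi_apply j)
  · unfold mu flip
    rw [Measure.infinitePi_map_pi (μ := fun _ : I => coin)
      (f := fun j b => if j = i then !b else b) (fun _ => measurable_of_countable _)]
    congr 1
    funext j
    by_cases h : j = i
    · simp only [h, if_true]
      exact coin_not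
    · simp only [h, if_false]
      exact Measure.map_id'

theorem wal_flip (A : Finset I) (i : I) (hi : i ∈ A) (ω : I → Bool) :
    wal A (flip i ω) = - wal A ω := by
  classical
  rw [wal_eq, wal_eq, ← Finset.mul_prod_erase A _ hi, ← Finset.mul_prod_erase A _ hi]
  have h1 : sg (flip i ω i) = - sg (ω i) := by
    unfold flip
    simp only [if_true]
    exact sg_not _
  have h2 : ∏ j ∈ A.erase i, sg (flip i ω j) = ∏ j ∈ A.erase i, sg (ω j) := by
    refine Finset.prod_congr rfl fun j hj => ?_
    unfold flip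
    simp only [(Finset.mem_erase.1 hj).1, if_false]
  rw [h1, h2, neg_mul]

theorem wal_integrable (A : Finset I) : Integrable (wal A : (I → Bool) → ℝ) (mu I) := by
  refine Integrable.of_bound (wal_measurable A).aestronglyMeasurable 1
    (Filter.Eventually.of_forall fun ω => ?_)
  rw [Real.norm_eq_abs, wal_abs]

theorem wal_integral (A : Finset I) (hA : A ≠ ∅) : ∫ ω, wal A ω ∂(mu I) = 0 := by
  obtain ⟨i, hi⟩ := Finset.nonempty_iff_ne_empty.2 hA
  have h1 : ∫ ω, wal A ω ∂(mu I) = ∫ ω, wal A (flip i ω) ∂(mu I) := by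
    have := integral_map (μ := mu I) (flip_mp i).measurable.aemeasurable
      (f := fun ω => wal A ω) (by
        rw [(flip_mp i).map_eq]
        exact (wal_measurable A).aestronglyMeasurable)
    rw [(flip_mp i).map_eq] at this
    exact this
  have h2 : ∫ ω, wal A (flip i ω) ∂(mu I) = - ∫ ω, wal A ω ∂(mu I) := by
    rw [← integral_neg]
    exact integral_congr_ae (Filter.Eventually.of_forall fun ω => wal_flip A i hi ω)
  linarith

theorem wal_memLp (A : Finset I) : MemLp (wal A : (I → Bool) → ℝ) 2 (mu I) := by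
  refine MemLp.of_bound (wal_measurable A).aestronglyMeasurable 1
    (Filter.Eventually.of_forall fun ω => ?_)
  rw [Real.norm_eq_abs, wal_abs]

/-- the Walsh functions in `L²` -/
noncomputable def W (A : Finset I) : Lp ℝ 2 (mu I) := (wal_memLp A).toLp _

theorem W_orthonormal : Orthonormal ℝ (W : Finset I → Lp ℝ 2 (mu I)) := by
  classical
  rw [orthonormal_iff_ite]
  intro A B
  rw [L2.inner_def]
  have h1 : ∫ ω, ⟪(W A : (I → Bool) → ℝ) ω, (W B : (I → Bool) → ℝ) ω⟫ ∂(mu I) =
      ∫ ω, wal (symmDiff A B) ω ∂(mu I) := by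
    refine integral_congr_ae ?_
    filter_upwards [(wal_memLp A).coeFn_toLp, (wal_memLp B).coeFn_toLp] with ω hA hB
    have hA' : (W A : (I → Bool) → ℝ) ω = wal A ω := hA
    have hB' : (W B : (I → Bool) → ℝ) ω = wal B ω := hB
    rw [hA', hB', ← wal_mul]
    simp [mul_comm]
  rw [h1]
  by_cases h : A = B
  · subst h
    simp [wal_empty]
  · rw [if_neg h]
    exact wal_integral _ (fun h' => h (symmDiff_eq_bot.1 h'))

/-- the linear span of the Walsh functions, as functions -/
def Sp (I : Type) : Submodule ℝ ((I → Bool) → ℝ) := Submodule.span ℝ (Set.range fun A : Finset I => wal A)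

theorem wal_mem (A : Finset I) : (wal A : (I → Bool) → ℝ) ∈ Sp I :=
  Submodule.subset_span ⟨A, rfl⟩

theorem one_mem : (fun _ => 1 : (I → Bool) → ℝ) ∈ Sp I := by
  have : (fun _ => 1 : (I → Bool) → ℝ) = wal ∅ := by
    funext ω
    rw [wal_empty]
  rw [this]
  exact wal_mem _

theorem mul_mem {f g : (I → Bool) → ℝ} (hf : f ∈ Sp I) (hg : g ∈ Sp I) :
    (fun ω => f ω * g ω) ∈ Sp I := by
  classical
  unfold Sp at hf hg
  induction hf using Submodule.span_induction with
  | mem f hf =>
    obtain ⟨A, rfl⟩ := hf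
    induction hg using Submodule.span_induction with
    | mem g hg =>
      obtain ⟨B, rfl⟩ := hg
      have : (fun ω => wal A ω * wal B ω : (I → Bool) → ℝ) = wal (symmDiff A B) := by
        funext ω
        exact wal_mul A B ω
      simp only
      rw [this]
      exact wal_mem _
    | zero =>
      simp only [Pi.zero_apply, mul_zero]
      exact Submodule.zero_mem _
    | add g h _ _ ih1 ih2 =>
      have := Submodule.add_mem _ ih1 ih2
      convert this using 1
      funext ω
      simp [mul_add]
    | smul c g _ ih =>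
      have := Submodule.smul_mem _ c ih
      convert this using 1
      funext ω
      simp
      ring
  | zero =>
    simp only [Pi.zero_apply, zero_mul]
    exact Submodule.zero_mem _
  | add f h _ _ ih1 ih2 =>
    have := Submodule.add_mem _ ih1 ih2
    convert this using 1
    funext ω
    simp [add_mul]
  | smul c f _ ih =>
    have := Submodule.smul_mem _ c ih
    convert this using 1
    funext ω
    simp
    ring

theorem prod_mem (F : Finset I) (f : I → (I → Bool) → ℝ) (hf : ∀ i ∈ F, f i ∈ Sp I) :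
    (fun ω => ∏ i ∈ F, f i ω) ∈ Sp I := by
  classical
  induction F using Finset.induction_on with
  | empty =>
    simp only [Finset.prod_empty]
    exact one_mem
  | insert a s ha ih =>
    have h1 := mul_mem (hf a (Finset.mem_insert_self a s))
      (ih fun i hi => hf i (Finset.mem_insert_of_mem hi))
    convert h1 using 1
    funext ω
    rw [Finset.prod_insert ha]

theorem half_mem (i : I) (b : Bool) : (fun ω : I → Bool => if ω i = b then (1 : ℝ) else 0) ∈ Sp I := by
  have h1 : (fun ω : I → Bool => if ω i = b then (1 : ℝ) else 0) =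
      (1 / 2 : ℝ) • (fun _ => 1 : (I → Bool) → ℝ) + (sg b / 2) • (wal {i} : (I → Bool) → ℝ) := by
    funext ω
    simp only [Pi.add_apply, Pi.smul_apply, smul_eq_mul, wal_eq, Finset.prod_singleton]
    rcases ω i with _ | _ <;> rcases b with _ | _ <;> simp [sg] <;> norm_num
  rw [h1]
  exact Submodule.add_mem _ (Submodule.smul_mem _ _ one_mem) (Submodule.smul_mem _ _ (wal_mem _))

open Classical in
/-- extension by `false` -/
noncomputable def ext (F : Finset I) (y : F → Bool) (i : I) : Bool :=
  if h : i ∈ F then y ⟨i, h⟩ else false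

theorem ind_mem (F : Finset I) (C : Set (I → Bool))
    (hC : ∀ ω ω' : I → Bool, (∀ i ∈ F, ω i = ω' i) → (ω ∈ C ↔ ω' ∈ C)) :
    (C.indicator (fun _ => (1 : ℝ))) ∈ Sp I := by
  classical
  have h1 : (C.indicator (fun _ => (1 : ℝ))) = fun ω => ∑ y : F → Bool,
      (if ext F y ∈ C then (1 : ℝ) else 0) * ∏ i ∈ F, (if ω i = ext F y i then (1 : ℝ) else 0) := by
    funext ω
    rw [Finset.sum_eq_single (fun i : F => ω i)]
    · have h2 : ∏ i ∈ F, (if ω i = ext F (fun i : F => ω i) i then (1 : ℝ) else 0) = 1 := by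
        refine Finset.prod_eq_one fun i hi => ?_
        rw [if_pos]
        unfold ext
        rw [dif_pos hi]
      have h3 : ext F (fun i : F => ω i) ∈ C ↔ ω ∈ C := by
        apply hC
        intro i hi
        unfold ext
        rw [dif_pos hi]
      rw [h2, mul_one]
      by_cases hω : ω ∈ C
      · rw [Set.indicator_of_mem hω, if_pos (h3.2 hω)]
      · rw [Set.indicator_of_notMem hω, if_neg (fun h => hω (h3.1 h))]
    · intro y _ hy
      have : ∃ i : F, ω i ≠ y i := by
        by_contra hcon
        push Not at hcon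
        exact hy (funext fun i => (hcon i).symm)
      obtain ⟨i, hi⟩ := this
      rw [Finset.prod_eq_zero i.2, mul_zero]
      rw [if_neg]
      unfold ext
      rw [dif_pos i.2]
      exact hi
    · intro h
      exact absurd (Finset.mem_univ _) h
  rw [h1]
  have h4 : (fun ω => ∑ y : F → Bool,
      (if ext F y ∈ C then (1 : ℝ) else 0) * ∏ i ∈ F, (if ω i = ext F y i then (1 : ℝ) else 0)) =
      ∑ y : F → Bool, (if ext F y ∈ C then (1 : ℝ) else 0) •
        (fun ω : I → Bool => ∏ i ∈ F, (if ω i = ext F y i then (1 : ℝ) else 0)) := by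
    funext ω
    rw [Finset.sum_apply]
    exact Finset.sum_congr rfl fun y _ => rfl
  rw [h4]
  refine Submodule.sum_mem _ fun y _ => Submodule.smul_mem _ _ ?_
  exact prod_mem F _ fun i _ => half_mem i _

theorem toLp_mem {f : (I → Bool) → ℝ} (hf : f ∈ Sp I) :
    ∃ h : MemLp f 2 (mu I), h.toLp f ∈ Submodule.span ℝ (Set.range (W : Finset I → Lp ℝ 2 (mu I))) := by
  unfold Sp at hf
  induction hf using Submodule.span_induction with
  | mem f hf =>
    obtain ⟨A, rfl⟩ := hf
    exact ⟨wal_memLp A, Submodule.subset_span ⟨A, rfl⟩⟩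
  | zero =>
    refine ⟨MemLp.zero', ?_⟩
    have : (MemLp.zero' : MemLp (0 : (I → Bool) → ℝ) 2 (mu I)).toLp 0 = 0 := MemLp.toLp_zero _
    rw [this]
    exact Submodule.zero_mem _
  | add f g _ _ ih1 ih2 =>
    obtain ⟨h1, m1⟩ := ih1
    obtain ⟨h2, m2⟩ := ih2
    refine ⟨h1.add h2, ?_⟩
    rw [MemLp.toLp_add h1 h2]
    exact Submodule.add_mem _ m1 m2
  | smul c f _ ih =>
    obtain ⟨h1, m1⟩ := ih
    refine ⟨h1.const_smul c, ?_⟩
    rw [MemLp.toLp_const_smul c h1]
    exact Submodule.smul_mem _ _ m1

end H30.ES.WALaux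

namespace H30.ES

open MeasureTheory Set H14.ES WALaux
open scoped ENNReal RealInnerProductSpace

theorem t_WAL (hApx : S_APX) : S_WAL := by
  classical
  intro I _ E hE
  set K : Submodule ℝ (Lp ℝ 2 (mu I)) :=
    Submodule.span ℝ (Set.range (W : Finset I → Lp ℝ 2 (mu I))) with hK
  -- indicators of measurable sets lie in the closure
  have hcl : ∀ (A : Set (I → Bool)) (hA : MeasurableSet A),
      indicatorConstLp 2 hA (measure_ne_top (mu I) A) (1 : ℝ) ∈ closure (K : Set (Lp ℝ 2 (mu I))) := by
    intro A hA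
    rw [Metric.mem_closure_iff]
    intro ε hε
    obtain ⟨F, C, hC, hdep, hsym⟩ := hApx I A hA (ENNReal.ofReal ((ε / 2) ^ 2)) (by
      simp only [ne_eq, ENNReal.ofReal_eq_zero, not_le]
      positivity)
    refine ⟨indicatorConstLp 2 hC (measure_ne_top (mu I) C) (1 : ℝ), ?_, ?_⟩
    · obtain ⟨h, hm⟩ := toLp_mem (ind_mem F C hdep)
      exact hm
    · rw [dist_indicatorConstLp_eq_norm, norm_indicatorConstLp (by norm_num) (by norm_num)]
      have h1 : (mu I).real (symmDiff A C) ≤ (ε / 2) ^ 2 := by
        have := ENNReal.toReal_mono ENNReal.ofReal_ne_top hsym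
        rwa [ENNReal.toReal_ofReal (by positivity)] at this
      have h2 : (mu I).real (symmDiff A C) ^ (1 / (2 : ℝ≥0∞).toReal) ≤ ε / 2 := by
        rw [ENNReal.toReal_ofNat, ← Real.sqrt_eq_rpow]
        refine (Real.sqrt_le_sqrt h1).trans ?_
        rw [Real.sqrt_sq (by positivity)]
      rw [norm_one, one_mul]
      linarith
  have hbot : Kᗮ = ⊥ := by
    rw [Submodule.eq_bot_iff]
    intro f hf
    have h0 : ∀ (A : Set (I → Bool)) (hA : MeasurableSet A), ∫ x in A, f x ∂(mu I) = 0 := by
      intro A hA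
      rw [← L2.inner_indicatorConstLp_one (𝕜 := ℝ) hA (measure_ne_top (mu I) A) f]
      have h1 : indicatorConstLp 2 hA (measure_ne_top (mu I) A) (1 : ℝ) ∈ K.topologicalClosure :=
        hcl A hA
      have h2 : f ∈ (K.topologicalClosure)ᗮ := by
        rw [Submodule.orthogonal_closure]
        exact hf
      exact (Submodule.mem_orthogonal _ _).1 h2 _ h1
    have h3 : f =ᵐ[mu I] 0 :=
      Lp.ae_eq_zero_of_forall_setIntegral_eq_zero f (by norm_num) (by norm_num)
        (fun s _ _ => ((Lp.memLp f).integrable one_le_two).integrableOn) (fun s hs _ => h0 s hs)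
    exact (Lp.eq_zero_iff_ae_eq_zero).2 h3
  let b := HilbertBasis.mkOfOrthogonalEqBot (W_orthonormal (I := I)) hbot
  have hb : ∀ A, b A = W A := fun A => by
    have := HilbertBasis.coe_mkOfOrthogonalEqBot (W_orthonormal (I := I)) hbot
    exact congrFun this A
  have hsum := b.hasSum_inner_mul_inner
    (indicatorConstLp 2 hE (measure_ne_top (mu I) E) (1 : ℝ))
    (indicatorConstLp 2 hE (measure_ne_top (mu I) E) (1 : ℝ))
  have hin : ∀ A : Finset I, ⟪indicatorConstLp 2 hE (measure_ne_top (mu I) E) (1 : ℝ), b A⟫ =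
      ∫ ω in E, wal A ω ∂(mu I) := by
    intro A
    rw [hb, L2.inner_indicatorConstLp_one (𝕜 := ℝ) hE (measure_ne_top (mu I) E) (W A)]
    exact integral_congr_ae (ae_restrict_of_ae (wal_memLp A).coeFn_toLp)
  have hself : ⟪indicatorConstLp 2 hE (measure_ne_top (mu I) E) (1 : ℝ),
      indicatorConstLp 2 hE (measure_ne_top (mu I) E) (1 : ℝ)⟫ = ((mu I) E).toReal := by
    rw [L2.real_inner_indicatorConstLp_one_indicatorConstLp_one, Set.inter_self]
    rfl
  rw [hself] at hsum
  have hfun : (fun A : Finset I => (∫ ω in E, wal A ω ∂(mu I)) ^ 2) = fun i =>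
      ⟪indicatorConstLp 2 hE (measure_ne_top (mu I) E) (1 : ℝ), b i⟫ *
        ⟪b i, indicatorConstLp 2 hE (measure_ne_top (mu I) E) (1 : ℝ)⟫ := by
    funext A
    rw [real_inner_comm _ (b A), hin A, sq]
  rw [hfun]
  exact hsum

end H30.ES
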